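import Pool.Agent.W_cd7020_h81r.CTop
import Pool.Agent.W_cd7020_h81r.CNs
import Pool.Agent.W_cd7020_h81d.DTop

/-!
# All colourings
-/

set_option autoImplicit false

namespace Pool.Agent.W_cd7020_h81f

open Finset Pool.Agent.W_cd7020_h81 Pool.Agent.W_cd7020_h81b Pool.Agent.W_cd7020_h81k
  Pool.Agent.W_cd7020_h81r Pool.Agent.W_cd7020_h81d

variable {V κ : Type*} [DecidableEq V] [DecidableEq κ] [Fintype V]

/-- The colours missing at at most `n / L ^ 358` vertices. -/
noncomputable def SA (col : Sym2 V → κ) (L : ℕ) : Finset κ :=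
  ((univ : Finset (Sym2 V)).image col).filter
    (fun k => (univ.filter (fun x => par col k x = x)).card * L ^ 358 ≤ Fintype.card V)

/-- Every vertex has a partner in the colour `k` or misses it. -/
theorem ec_miss (col : Sym2 V → κ) (hcol : Proper col) (k : κ) :
    ec col k + (univ.filter (fun x => par col k x = x)).card = Fintype.card V := by
  have h1 : ec col k = (univ.filter (fun x => ¬ par col k x = x)).card := by
    unfold ec
    refine Finset.card_bij (fun p _ => p.1) ?_ ?_ ?_
    · intro p hp
      simp only [mem_filter, mem_univ, true_and] at hp ⊢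
      intro h
      have h2 := par_eq col hcol k p.1 p.2 (Ne.symm hp.1) hp.2
      rw [h] at h2
      exact hp.1 h2
    · intro p hp p' hp' h
      simp only [mem_filter, mem_univ, true_and] at hp hp'
      have h2 := par_eq col hcol k p.1 p.2 (Ne.symm hp.1) hp.2
      have h3 := par_eq col hcol k p'.1 p'.2 (Ne.symm hp'.1) hp'.2
      rw [h, h3] at h2
      exact Prod.ext h h2.symm
    · intro x hx
      simp only [mem_filter, mem_univ, true_and] at hx
      refine ⟨(x, par col k x), ?_, rfl⟩
      simp only [mem_filter, mem_univ, true_and]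
      exact ⟨fun h => hx h.symm, par_col col k x hx⟩
  rw [h1, add_comm, Finset.card_filter_add_card_filter_not, Finset.card_univ]

/-- The case of few almost perfect colours. -/
theorem few_case (col : Sym2 V → κ) (hcol : Proper col) (L : ℕ) (hL : 10 ^ 7 ≤ L)
    (hn : Fintype.card V ≤ 2 ^ L) (hn2 : L ^ 220000 ≤ Fintype.card V)
    (h : Fintype.card V < (Fintype.card V - (SA col L).card) * L ^ 180) :
    ∃ E, Cyc univ E ∧ E.card = Fintype.card V ∧ Rb col E := by
  refine case2 col hcol L hL hn hn2 ((univ : Finset (Sym2 V)).image col \ SA col L) ?_ ?_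
  · intro x
    have h1 := deg_nS col hcol (SA col L) x
    have h2 : dC col ((univ : Finset (Sym2 V)).image col \ SA col L) x =
        (univ.filter (fun y => y ≠ x ∧ col s(x, y) ∉ SA col L)).card := by
      unfold dC
      congr 1
      ext y
      simp only [mem_filter, mem_univ, true_and, mem_sdiff]
      refine and_congr_right fun _ => ⟨fun h => h.2, fun h => ⟨mem_image_of_mem _ (mem_univ _), h⟩⟩
    have h3 : Fintype.card V - (SA col L).card ≤
        dC col ((univ : Finset (Sym2 V)).image col \ SA col L) x + 1 := by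
      rw [h2]
      omega
    have h4 : L ^ 180 ≤ Fintype.card V := by
      refine le_trans (Nat.pow_le_pow_right (by omega) ?_) hn2
      norm_num
    have h5 : 1 ≤ dC col ((univ : Finset (Sym2 V)).image col \ SA col L) x := by
      by_contra hcon
      have h6 : Fintype.card V - (SA col L).card ≤ 1 := by omega
      have h7 : (Fintype.card V - (SA col L).card) * L ^ 180 ≤ 1 * L ^ 180 :=
        Nat.mul_le_mul_right _ h6
      omega
    calc Fintype.card V ≤ (Fintype.card V - (SA col L).card) * L ^ 180 := h.le
      _ ≤ (2 * dC col ((univ : Finset (Sym2 V)).image col \ SA col L) x) * L ^ 180 :=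
          Nat.mul_le_mul_right _ (by omega)
      _ = _ := by ring
  · intro k hk
    obtain ⟨h1, h2⟩ := mem_sdiff.1 hk
    have h3 : Fintype.card V < (univ.filter (fun x => par col k x = x)).card * L ^ 358 := by
      by_contra hcon
      exact h2 (mem_filter.2 ⟨h1, by omega⟩)
    have h4 := ec_miss col hcol k
    have h5 : Fintype.card V * L ^ 358 = ec col k * L ^ 358 +
        (univ.filter (fun x => par col k x = x)).card * L ^ 358 := by
      rw [← add_mul, h4]
    omega

/-- The case of many almost perfect colours. -/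
theorem many_case (col : Sym2 V → κ) (hcol : Proper col) (L : ℕ) (hL : 10 ^ 7 ≤ L)
    (hn : Fintype.card V ≤ 2 ^ L) (hn2 : L ^ 220000 ≤ Fintype.card V)
    (h : (Fintype.card V - (SA col L).card) * L ^ 180 ≤ Fintype.card V) :
    ∃ (U : Finset V) (E : Finset (Sym2 V)), Cyc U E ∧ E.card = U.card ∧ Rb col E ∧
      3 ≤ U.card ∧ Fintype.card V ≤ U.card + L ^ 207 ∧
      (U = univ ∨ ∀ M, Fix col (SA col L) M → (SA col L).card + M.card < U.card + L ^ 207) := by
  classical
  obtain ⟨M₀, hM₀, hM₀c⟩ := nS_matching col hcol (SA col L) (by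
    have h1 : 16 * (Fintype.card V - 1 - (SA col L).card) ≤
        (Fintype.card V - (SA col L).card) * L ^ 180 := by
      have h2 : 16 ≤ L ^ 180 := by
        calc 16 ≤ L := by omega
          _ = L ^ 1 := (pow_one L).symm
          _ ≤ L ^ 180 := Nat.pow_le_pow_right (by omega) (by norm_num)
      calc 16 * (Fintype.card V - 1 - (SA col L).card) ≤
          L ^ 180 * (Fintype.card V - (SA col L).card) := Nat.mul_le_mul h2 (by omega)
        _ = _ := mul_comm _ _
    omega)
  obtain ⟨M, hM, hmax⟩ := Finset.exists_max_image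
    ((univ : Finset (Finset (Sym2 V))).filter (fun M => Fix col (SA col L) M))
    (fun M => M.card) ⟨M₀, mem_filter.2 ⟨mem_univ _, hM₀⟩⟩
  have hM1 : Fix col (SA col L) M := (mem_filter.1 hM).2
  obtain ⟨U, E, h1, h2, h3, h4, h5⟩ := case1 col hcol L
    (le_trans (by norm_num) hL) hn (le_trans (Nat.pow_le_pow_right (by omega) (by norm_num)) hn2)
    (SA col L) (fun k hk => (mem_filter.1 hk).2) h M hM1
  refine ⟨U, E, h1, h2, h3, h4, ?_, ?_⟩
  · rcases h5 with h5 | h5
    · rw [h5, Finset.card_univ]
      omega
    · have h6 := hmax M₀ (mem_filter.2 ⟨mem_univ _, hM₀⟩)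
      omega
  · rcases h5 with h5 | h5
    · exact Or.inl h5
    · right
      intro M' hM'
      have h6 := hmax M' (mem_filter.2 ⟨mem_univ _, hM'⟩)
      omega

/-- All colourings. -/
theorem all_col (col : Sym2 V → κ) (hcol : Proper col) (L : ℕ) (hL : 10 ^ 7 ≤ L)
    (hn : Fintype.card V ≤ 2 ^ L) (hn2 : L ^ 220000 ≤ Fintype.card V) :
    ∃ (U : Finset V) (E : Finset (Sym2 V)), Cyc U E ∧ E.card = U.card ∧ Rb col E ∧
      3 ≤ U.card ∧ Fintype.card V ≤ U.card + L ^ 207 ∧
      (U = univ ∨ ((Fintype.card V - (SA col L).card) * L ^ 180 ≤ Fintype.card V ∧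
        ∀ M, Fix col (SA col L) M → (SA col L).card + M.card < U.card + L ^ 207)) := by
  by_cases h : (Fintype.card V - (SA col L).card) * L ^ 180 ≤ Fintype.card V
  · obtain ⟨U, E, h1, h2, h3, h4, h5, h6⟩ := many_case col hcol L hL hn hn2 h
    refine ⟨U, E, h1, h2, h3, h4, h5, ?_⟩
    rcases h6 with h6 | h6
    · exact Or.inl h6
    · exact Or.inr ⟨h, h6⟩
  · obtain ⟨E, h1, h2, h3⟩ := few_case col hcol L hL hn hn2 (by omega)
    have h4 : 3 ≤ Fintype.card V := by
      refine le_trans ?_ hn2
      calc 3 ≤ L := by omega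
        _ = L ^ 1 := (pow_one L).symm
        _ ≤ L ^ 220000 := Nat.pow_le_pow_right (by omega) (by norm_num)
    refine ⟨univ, E, h1, ?_, h3, ?_, ?_, Or.inl rfl⟩
    · rw [Finset.card_univ]
      exact h2
    · rw [Finset.card_univ]
      exact h4
    · rw [Finset.card_univ]
      omega

/-- The conclusion for an arbitrary set `S` of almost perfect colours and a rainbow matching with
colours outside `S`. -/
theorem gen_S (col : Sym2 V → κ) (L : ℕ) (hL : 2 ≤ L) (hV : 0 < Fintype.card V)
    (S : Finset κ)
    (hS : ∀ k ∈ S, (univ.filter (fun x => par col k x = x)).card * L ^ 358 ≤ Fintype.card V)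
    (M : Finset (Sym2 V)) (hM : Fix col S M) :
    ∃ M', Fix col (SA col L) M' ∧ S.card + M.card ≤ (SA col L).card + M'.card := by
  have hsub : S ⊆ SA col L := by
    intro k hk
    refine mem_filter.2 ⟨?_, hS k hk⟩
    by_contra hcon
    have h1 : univ.filter (fun x => par col k x = x) = (univ : Finset V) := by
      rw [Finset.filter_eq_self]
      intro x _
      by_contra h2
      apply hcon
      rw [← par_col col k x h2]
      exact mem_image_of_mem _ (mem_univ _)
    have h2 := hS k hk
    rw [h1, Finset.card_univ] at h2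
    have h3 : 2 ≤ L ^ 358 := by
      calc 2 ≤ L := hL
        _ = L ^ 1 := (pow_one L).symm
        _ ≤ L ^ 358 := Nat.pow_le_pow_right (by omega) (by norm_num)
    nlinarith
  refine ⟨M.filter (fun e => col e ∉ SA col L), ?_, ?_⟩
  · refine ⟨?_, ?_, ?_, ?_⟩
    · intro e he
      exact hM.diag e (mem_filter.1 he).1
    · intro e he e' he'
      exact hM.mat e (mem_filter.1 he).1 e' (mem_filter.1 he').1
    · intro e he e' he'
      exact hM.rb e (mem_filter.1 he).1 e' (mem_filter.1 he').1
    · intro e he
      exact (mem_filter.1 he).2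
  · have h1 : (M.filter (fun e => ¬ col e ∉ SA col L)).card ≤ (SA col L \ S).card := by
      refine Finset.card_le_card_of_injOn col ?_ ?_
      · intro e he
        obtain ⟨h2, h3⟩ := mem_filter.1 (mem_coe.1 he)
        exact mem_coe.2 (mem_sdiff.2 ⟨not_not.1 h3, hM.cQ e h2⟩)
      · intro e he e' he' h
        exact hM.rb e (mem_filter.1 (mem_coe.1 he)).1 e' (mem_filter.1 (mem_coe.1 he')).1 h
    have h2 := Finset.card_filter_add_card_filter_not (s := M) (fun e => col e ∉ SA col L)
    have h3 := Finset.card_sdiff_add_card_eq_card hsub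
    omega

end Pool.Agent.W_cd7020_h81f
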