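import Pool.Agent.W_cd7020_h81f.FAll
import Pool.Agent.W_cd7020_h81b.Hand

/-!
# The hand-in statement
-/

set_option autoImplicit false

namespace Pool.Agent.W_cd7020_h81f

open Finset Pool.Agent.W_cd7020_h81 Pool.Agent.W_cd7020_h81b Pool.Agent.W_cd7020_h81k
  Pool.Agent.W_cd7020_h81r Pool.Agent.W_cd7020_h81d

/-- The logarithm is large and small powers of it are small. -/
theorem num_event (a b : ℕ) : ∃ n₀ : ℕ, ∀ n, n₀ ≤ n → a ≤ Nat.clog 2 n ∧
    (Nat.clog 2 n) ^ b ≤ n := by
  have h1 : ∀ᶠ x : ℝ in Filter.atTop, ‖Real.log x ^ b‖ ≤ (1 / 4 ^ b) * ‖id x‖ :=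
    (Asymptotics.isLittleO_iff.1 (Real.isLittleO_pow_log_id_atTop (n := b)))
      (by positivity)
  obtain ⟨x₀, hx₀⟩ := Filter.eventually_atTop.1 h1
  refine ⟨max (max (2 ^ a) 3) (⌈x₀⌉₊), fun n hn => ?_⟩
  have hn1 : 2 ^ a ≤ n := le_trans (le_trans (le_max_left _ _) (le_max_left _ _)) hn
  have hn2 : 3 ≤ n := le_trans (le_trans (le_max_right _ _) (le_max_left _ _)) hn
  have hn3 : ⌈x₀⌉₊ ≤ n := le_trans (le_max_right _ _) hn
  refine ⟨?_, ?_⟩
  · have h2 : Nat.clog 2 (2 ^ a) ≤ Nat.clog 2 n := Nat.clog_mono_right 2 hn1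
    rwa [Nat.clog_pow 2 a (by norm_num)] at h2
  · have h2 : (x₀ : ℝ) ≤ n := le_trans (Nat.le_ceil x₀) (by exact_mod_cast hn3)
    have h3 := hx₀ n h2
    have hlog1 : 1 ≤ Real.log n := by
      rw [Real.le_log_iff_exp_le (by positivity)]
      have h4 := Real.exp_one_lt_d9
      have h5 : (3 : ℝ) ≤ n := by exact_mod_cast hn2
      linarith
    have hlogc : (Nat.clog 2 n : ℝ) ≤ 4 * Real.log n := by
      have h4 : (Nat.clog 2 n) ≤ Nat.log 2 n + 1 := 
        (Nat.clog_le_iff_le_pow (by norm_num)).2 (Nat.lt_pow_succ_log_self (by norm_num) n).le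
      have h5 : (Nat.log 2 n : ℝ) ≤ Real.logb 2 n := Real.natLog_le_logb n 2
      have h6 : Real.logb 2 n = Real.log n / Real.log 2 := rfl
      have h7 : (1 / 2 : ℝ) < Real.log 2 := by
        have := Real.log_two_gt_d9
        linarith
      have h8 : Real.log n / Real.log 2 ≤ 2 * Real.log n := by
        rw [div_le_iff₀ (by linarith)]
        nlinarith
      have h9 : (Nat.clog 2 n : ℝ) ≤ Nat.log 2 n + 1 := by exact_mod_cast h4
      rw [h6] at h5
      linarith
    have h4 : ((Nat.clog 2 n : ℕ) : ℝ) ^ b ≤ n := by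
      calc ((Nat.clog 2 n : ℕ) : ℝ) ^ b ≤ (4 * Real.log n) ^ b :=
            pow_le_pow_left₀ (by positivity) hlogc b
        _ = 4 ^ b * Real.log n ^ b := mul_pow _ _ _
        _ ≤ 4 ^ b * ((1 / 4 ^ b) * n) := by
            refine mul_le_mul_of_nonneg_left ?_ (by positivity)
            have h5 := le_trans (le_abs_self _) h3
            simpa using h5
        _ = n := by
            field_simp
    exact_mod_cast h4

/-- The final statement. -/
theorem hand_all : ∃ n₀ : ℕ, ∀ n, n₀ ≤ n → ∀ c : Sym2 (Fin n) → ℕ,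
    (∀ a b d : Fin n, a ≠ b → a ≠ d → b ≠ d → c s(a, b) ≠ c s(a, d)) →
    ∃ (u v : Fin n) (w : (⊤ : SimpleGraph (Fin n)).Walk u v), w.IsPath ∧ u ≠ v ∧
      ((s(u, v) :: w.edges).map c).Nodup ∧
      n ≤ w.support.length + (Nat.clog 2 n) ^ 207 ∧
      (w.IsHamiltonian ∨
        (∃ S : Finset ℕ, n * (Nat.clog 2 n) ^ 180 ≤ n + S.card * (Nat.clog 2 n) ^ 180 ∧
          ∀ k ∈ S, (univ.filter (fun x : Fin n => ∀ y, y ≠ x → c s(x, y) ≠ k)).card *
            (Nat.clog 2 n) ^ 358 ≤ n) ∧
        ∀ (S : Finset ℕ) (M : Finset (Sym2 (Fin n))),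
          (∀ k ∈ S, (univ.filter (fun x : Fin n => ∀ y, y ≠ x → c s(x, y) ≠ k)).card *
            (Nat.clog 2 n) ^ 358 ≤ n) →
          (∀ e ∈ M, ¬ e.IsDiag ∧ c e ∉ S) →
          (∀ e ∈ M, ∀ f ∈ M, e ≠ f → c e ≠ c f ∧ ∀ x, x ∈ e → x ∉ f) →
          S.card + M.card < w.support.length + (Nat.clog 2 n) ^ 207) := by
  obtain ⟨n₀, hn₀⟩ := num_event (10 ^ 7) 220000
  refine ⟨n₀, fun n hn c hc => ?_⟩
  obtain ⟨hL, hn2⟩ := hn₀ n hn
  have hcard : Fintype.card (Fin n) = n := Fintype.card_fin n
  have hnL : n ≤ 2 ^ Nat.clog 2 n := Nat.le_pow_clog (by norm_num) n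
  have hcol : Proper c := fun x y z h1 h2 h4 => hc x y z h1 h2 h4
  generalize hLd : Nat.clog 2 n = L at *
  have hpar : ∀ k, (univ.filter (fun x : Fin n => ∀ y, y ≠ x → c s(x, y) ≠ k)) =
      univ.filter (fun x => par c k x = x) := by
    intro k
    ext x
    simp only [mem_filter, mem_univ, true_and]
    exact (par_self_iff c k x).symm
  obtain ⟨U, E, h1, h2, h3, h4, h5, h6⟩ := all_col c hcol L hL (by rw [hcard]; exact hnL)
    (by rw [hcard]; exact hn2)
  obtain ⟨x, y, p, h10, h11, h12, h13, h14⟩ := walk_of c U E h1 h2 h4 h3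
  have hlen : p.support.length = U.card := by
    have h15 : p.support.toFinset = U := by
      ext z
      rw [List.mem_toFinset]
      exact h12 z
    rw [← h15, List.toFinset_card_of_nodup h10.support_nodup]
  refine ⟨x, y, p, h10, h11, h13, ?_, ?_⟩
  · rw [hlen]
    rw [hcard] at h5
    exact h5
  · rcases h6 with h6 | ⟨h6, h7⟩
    · left
      intro z
      rw [List.count_eq_one_of_mem h10.support_nodup ((h12 z).2 (h6 ▸ mem_univ z))]
    · right
      refine ⟨⟨SA c L, ?_, ?_⟩, ?_⟩
      · rw [hcard] at h6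
        have h8 : n * L ^ 180 ≤ ((n - (SA c L).card) + (SA c L).card) * L ^ 180 :=
          Nat.mul_le_mul_right _ (by omega)
        rw [add_mul] at h8
        omega
      · intro k hk
        rw [hpar k]
        have h8 := (mem_filter.1 hk).2
        rw [hcard] at h8
        exact h8
      · intro S M hS hM hM2
        have hS' : ∀ k ∈ S, (univ.filter (fun x => par c k x = x)).card * L ^ 358 ≤
            Fintype.card (Fin n) := by
          intro k hk
          rw [hcard, ← hpar k]
          exact hS k hk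
        have hF : Fix c S M := by
          refine ⟨fun e he => (hM e he).1, ?_, ?_, fun e he => (hM e he).2⟩
          · intro e he f hf x hx hx'
            by_contra hne
            exact (hM2 e he f hf hne).2 x hx hx'
          · intro e he f hf hcc
            by_contra hne
            exact (hM2 e he f hf hne).1 hcc
        have hL2 : 2 ≤ L := le_trans (by norm_num) hL
        have hV : 0 < Fintype.card (Fin n) := by
          rw [hcard]
          have h3' : 3 ≤ U.card := h4
          have h8 : U.card ≤ n := by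
            have := Finset.card_le_univ U
            rw [hcard] at this
            exact this
          omega
        obtain ⟨M', hM', hle⟩ := gen_S c L hL2 hV S hS' M hF
        have h8 := h7 M' hM'
        rw [hlen]
        omega

end Pool.Agent.W_cd7020_h81f
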