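import Pool.Agent.W_cd7020_h81f.FLf
import Pool.Agent.W_cd7020_h81f.FHand

/-!
# The hand-in statement
-/

set_option autoImplicit false

namespace Pool.Agent.W_cd7020_h81f

open Finset Pool.Agent.W_cd7020_h81 Pool.Agent.W_cd7020_h81b Pool.Agent.W_cd7020_h81k
  Pool.Agent.W_cd7020_h81r Pool.Agent.W_cd7020_h81d

/-- The edges of a walk are the consecutive pairs of its support. -/
theorem edges_pe {n : ℕ} {a b : Fin n} (p : (⊤ : SimpleGraph (Fin n)).Walk a b) :
    p.edges = pe p.support := by
  induction p with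
  | nil => rfl
  | cons h p ih =>
    rw [SimpleGraph.Walk.edges_cons, SimpleGraph.Walk.support_cons, ih]
    cases p with
    | nil => rfl
    | cons h' p' => rfl

/-- A set of edges of a path is a linear forest. -/
theorem lf_path {n : ℕ} {a b : Fin n} (p : (⊤ : SimpleGraph (Fin n)).Walk a b)
    (hp : p.IsPath) (F : Finset (Sym2 (Fin n))) (hF : ∀ e ∈ F, e ∈ p.edges) : LF univ F := by
  refine ⟨p.support ++ (univ \ p.support.toFinset).toList, ?_, ?_, ?_⟩
  · rw [List.nodup_append]
    refine ⟨hp.support_nodup, Finset.nodup_toList _, ?_⟩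
    intro x hx y hy h
    rw [Finset.mem_toList, mem_sdiff, List.mem_toFinset] at hy
    exact hy.2 (h ▸ hx)
  · intro v
    rw [List.mem_append, Finset.mem_toList, mem_sdiff, List.mem_toFinset]
    refine ⟨fun _ => mem_univ v, fun _ => ?_⟩
    by_cases h : v ∈ p.support
    · exact Or.inl h
    · exact Or.inr ⟨mem_univ v, h⟩
  · intro e he
    have h1 := hF e he
    rw [edges_pe p] at h1
    exact mem_pe_left _ _ e h1

/-- The final statement. -/
theorem hand_allL : ∃ n₀ : ℕ, ∀ n, n₀ ≤ n → ∀ c : Sym2 (Fin n) → ℕ,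
    (∀ a b d : Fin n, a ≠ b → a ≠ d → b ≠ d → c s(a, b) ≠ c s(a, d)) →
    ∃ (u v : Fin n) (w : (⊤ : SimpleGraph (Fin n)).Walk u v), w.IsPath ∧ u ≠ v ∧
      ((s(u, v) :: w.edges).map c).Nodup ∧
      n ≤ w.support.length + (Nat.clog 2 n) ^ 207 ∧
      (w.IsHamiltonian ∨
        (∃ S : Finset ℕ, n ≤ S.card + (Nat.clog 2 n) ^ 566 ∧
          (∀ k ∈ S, (univ.filter (fun x : Fin n => ∀ y, y ≠ x → c s(x, y) ≠ k)).card *
            (Nat.clog 2 n) ^ 358 ≤ n) ∧
          ∑ k ∈ S, (univ.filter (fun x : Fin n => ∀ y, y ≠ x → c s(x, y) ≠ k)).card ≤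
            n * (Nat.clog 2 n) ^ 207) ∧
        (((univ : Finset (Sym2 (Fin n))).filter (fun e => ¬ e.IsDiag)).image c).card ≤
          n * (Nat.clog 2 n) ^ 567 ∧
        ∀ (S : Finset ℕ) (a b : Fin n) (p : (⊤ : SimpleGraph (Fin n)).Walk a b)
          (F : Finset (Sym2 (Fin n))),
          (∀ k ∈ S, (univ.filter (fun x : Fin n => ∀ y, y ≠ x → c s(x, y) ≠ k)).card *
            (Nat.clog 2 n) ^ 358 ≤ n) →
          p.IsPath → (∀ e ∈ F, e ∈ p.edges ∧ c e ∉ S) →
          (∀ e ∈ F, ∀ f ∈ F, c e = c f → e = f) →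
          S.card + F.card < w.support.length + (Nat.clog 2 n) ^ 207) := by
  obtain ⟨n₀, hn₀⟩ := num_event (10 ^ 7) 220000
  refine ⟨n₀, fun n hn c hc => ?_⟩
  obtain ⟨hL, hn2⟩ := hn₀ n hn
  have hcard : Fintype.card (Fin n) = n := Fintype.card_fin n
  have hnL : n ≤ 2 ^ Nat.clog 2 n := Nat.le_pow_clog (by norm_num) n
  have hcol : Proper c := fun x y z h1 h2 h4 => hc x y z h1 h2 h4
  generalize hLd : Nat.clog 2 n = L at *
  have hpar : ∀ k, (univ.filter (fun x : Fin n => ∀ y, y ≠ x → c s(x, y) ≠ k)) =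
      univ.filter (fun x => par c k x = x) := by
    intro k
    ext x
    simp only [mem_filter, mem_univ, true_and]
    exact (par_self_iff c k x).symm
  obtain ⟨U, E, h1, h2, h3, h4, h5, h6⟩ := all_colL c hcol L hL (by rw [hcard]; exact hnL)
    (by rw [hcard]; exact hn2)
  obtain ⟨x, y, p, h10, h11, h12, h13, h14⟩ := walk_of c U E h1 h2 h4 h3
  have hlen : p.support.length = U.card := by
    have h15 : p.support.toFinset = U := by
      ext z
      rw [List.mem_toFinset]
      exact h12 z
    rw [← h15, List.toFinset_card_of_nodup h10.support_nodup]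
  refine ⟨x, y, p, h10, h11, h13, ?_, ?_⟩
  · rw [hlen]
    rw [hcard] at h5
    exact h5
  · rcases h6 with h6 | ⟨h6, h7, h7', h8⟩
    · left
      intro z
      rw [List.count_eq_one_of_mem h10.support_nodup ((h12 z).2 (h6 ▸ mem_univ z))]
    · right
      refine ⟨⟨SA c L, ?_, ?_, ?_⟩, ?_, ?_⟩
      · rw [hcard] at h6
        exact h6
      · intro k hk
        rw [hpar k]
        have h9 := (mem_filter.1 hk).2
        rw [hcard] at h9
        exact h9
      · simp_rw [hpar]
        rw [hcard] at h7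
        exact h7
      · rw [hcard] at h7'
        exact h7'
      · intro S a b q F hS hq hF hr
        have hS' : ∀ k ∈ S, (univ.filter (fun x => par c k x = x)).card * L ^ 358 ≤
            Fintype.card (Fin n) := by
          intro k hk
          rw [hcard, ← hpar k]
          exact hS k hk
        have hL2 : 2 ≤ L := le_trans (by norm_num) hL
        have hV : 0 < Fintype.card (Fin n) := by
          rw [hcard]
          have h3' : 3 ≤ U.card := h4
          have h9 : U.card ≤ n := by
            have := Finset.card_le_univ U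
            rw [hcard] at this
            exact this
          omega
        obtain ⟨F', hF1, hF2, hF3, hle⟩ := gen_SL c L hL2 hV S hS' F
          (lf_path q hq F fun e he => (hF e he).1) (fun e he f hf h => hr e he f hf h)
          (fun e he => (hF e he).2)
        have h9 := h8 F' hF1 hF2 hF3
        rw [hlen]
        omega

end Pool.Agent.W_cd7020_h81f
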