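import Pool.Agent.W_cd7020_h81f.FAll
import Pool.Agent.W_cd7020_h81g.GCas
import Pool.Agent.W_cd7020_h81g.GCnt

/-!
# All colourings, with linear forests
-/

set_option autoImplicit false

namespace Pool.Agent.W_cd7020_h81f

open Finset Pool.Agent.W_cd7020_h81 Pool.Agent.W_cd7020_h81b Pool.Agent.W_cd7020_h81k
  Pool.Agent.W_cd7020_h81r Pool.Agent.W_cd7020_h81d Pool.Agent.W_cd7020_h81g

variable {V κ : Type*} [DecidableEq V] [DecidableEq κ] [Fintype V]

/-- The edges with colours outside `S`. -/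
def HE (col : Sym2 V → κ) (S : Finset κ) : Finset (Sym2 V) :=
  univ.filter (fun e => ¬ e.IsDiag ∧ col e ∉ S)

theorem mem_HE (col : Sym2 V → κ) (S : Finset κ) (e : Sym2 V) :
    e ∈ HE col S ↔ ¬ e.IsDiag ∧ col e ∉ S := by
  simp [HE]

theorem HE_proper (col : Sym2 V → κ) (hcol : Proper col) (S : Finset κ) :
    ∀ e ∈ HE col S, ∀ e' ∈ HE col S, ∀ x, x ∈ e → x ∈ e' → col e = col e' → e = e' := by
  intro e he e' he' x hx hx' h
  obtain ⟨y, rfl⟩ := Sym2.mem_iff_exists.1 hx
  obtain ⟨z, rfl⟩ := Sym2.mem_iff_exists.1 hx'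
  by_contra hne
  have h1 : x ≠ y := fun h => ((mem_HE col S _).1 he).1 (by rw [h]; exact Sym2.mk_isDiag_iff.2 rfl)
  have h2 : x ≠ z := fun h => ((mem_HE col S _).1 he').1 (by rw [h]; exact Sym2.mk_isDiag_iff.2 rfl)
  have h3 : y ≠ z := fun h => hne (by rw [h])
  exact hcol x y z h1 h2 h3 h

theorem dg_HE (col : Sym2 V → κ) (S : Finset κ) (x : V) :
    dg (HE col S) x = (univ.filter (fun y => y ≠ x ∧ col s(x, y) ∉ S)).card := by
  unfold dg
  symm
  refine Finset.card_bij (fun y _ => s(x, y)) ?_ ?_ ?_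
  · intro y hy
    simp only [mem_filter, mem_univ, true_and, mem_HE] at hy ⊢
    exact ⟨⟨fun h => hy.1 (Sym2.mk_isDiag_iff.1 h).symm, hy.2⟩, Sym2.mem_mk_left x y⟩
  · intro y _ y' _ h
    exact Sym2.congr_right.1 h
  · intro e he
    simp only [mem_filter, mem_HE] at he
    obtain ⟨y, rfl⟩ := Sym2.mem_iff_exists.1 he.2
    refine ⟨y, ?_, rfl⟩
    simp only [mem_filter, mem_univ, true_and]
    exact ⟨fun h => he.1.1 (Sym2.mk_isDiag_iff.2 h.symm), he.1.2⟩

theorem sum_dg_nd (E : Finset (Sym2 V)) (hE : ∀ e ∈ E, ¬ e.IsDiag) :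
    ∑ x, dg E x = 2 * E.card := by
  unfold dg
  have h1 : ∀ x : V, (E.filter (fun e => x ∈ e)).card = ∑ e ∈ E, if x ∈ e then 1 else 0 := by
    intro x
    rw [Finset.card_filter]
  simp_rw [h1]
  rw [Finset.sum_comm]
  rw [Finset.sum_congr rfl (g := fun _ => 2), Finset.sum_const, smul_eq_mul, mul_comm]
  intro e he
  induction e with
  | h a b =>
    have hab : a ≠ b := fun h => hE _ he (Sym2.mk_isDiag_iff.2 h)
    have h2 : (univ.filter (fun x : V => x ∈ s(a, b))) = {a, b} := by
      ext x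
      simp
    rw [← Finset.card_filter, h2, Finset.card_pair hab]

theorem class_HE (col : Sym2 V → κ) (S : Finset κ) (q : κ) :
    2 * ((HE col S).filter (fun e => col e = q)).card ≤ ec col q := by
  rw [← sum_dg_nd _ (fun e he => ((mem_HE col S e).1 (mem_filter.1 he).1).1)]
  unfold ec dg
  have h1 : ∀ x : V, (((HE col S).filter (fun e => col e = q)).filter (fun e => x ∈ e)).card ≤
      (univ.filter (fun y => x ≠ y ∧ col s(x, y) = q)).card := by
    intro x
    refine Finset.card_le_card_of_surjOn (fun y => s(x, y)) ?_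
    intro e he
    simp only [coe_filter, mem_filter, mem_HE, Set.mem_setOf_eq] at he
    obtain ⟨⟨⟨h2, h3⟩, h4⟩, h5⟩ := he
    obtain ⟨y, rfl⟩ := Sym2.mem_iff_exists.1 h5
    refine ⟨y, ?_, rfl⟩
    simp only [coe_filter, mem_univ, true_and, Set.mem_setOf_eq]
    exact ⟨fun h => h2 (Sym2.mk_isDiag_iff.2 h), h4⟩
  refine (Finset.sum_le_sum fun x _ => h1 x).trans (le_of_eq ?_)
  rw [Finset.card_eq_sum_card_fiberwise (f := Prod.fst) (t := univ) (by intro _ _; simp)]
  refine Finset.sum_congr rfl fun x _ => ?_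
  refine Finset.card_bij (fun y _ => (x, y)) ?_ ?_ ?_
  · intro y hy
    simp only [mem_filter, mem_univ, true_and] at hy ⊢
    exact ⟨hy, trivial⟩
  · intro y _ y' _ h
    exact (Prod.ext_iff.1 h).2
  · intro p hp
    simp only [mem_filter, mem_univ, true_and] at hp
    obtain ⟨⟨h2, h3⟩, h4⟩ := hp
    refine ⟨p.2, ?_, ?_⟩
    · simp only [mem_filter, mem_univ, true_and]
      rw [← h4]
      exact ⟨h2, h3⟩
    · rw [← h4]

/-- The number of edges outside `S`. -/
theorem card_HE (col : Sym2 V → κ) (hcol : Proper col) (S : Finset κ) :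
    2 * (HE col S).card + Fintype.card V * (S.card + 1) =
      Fintype.card V * Fintype.card V + ∑ k ∈ S, (univ.filter (fun x => par col k x = x)).card := by
  rw [← sum_dg_nd _ (fun e he => ((mem_HE col S e).1 he).1)]
  have h1 : ∑ x, (dg (HE col S) x + (S.card + 1)) = ∑ x, (Fintype.card V + miss col S x) := by
    refine Finset.sum_congr rfl fun x _ => ?_
    have h2 := deg_nS col hcol S x
    rw [dg_HE]
    omega
  simp only [Finset.sum_add_distrib, Finset.sum_const, Finset.card_univ, smul_eq_mul] at h1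
  have h3 : ∑ x, miss col S x = ∑ k ∈ S, (univ.filter (fun x => par col k x = x)).card := by
    unfold miss
    simp_rw [Finset.card_filter]
    rw [Finset.sum_comm]
  rw [h3] at h1
  rw [mul_add]
  exact h1

/-- The colours of the edges of the complete graph. -/
def allC (col : Sym2 V → κ) : Finset κ :=
  ((univ : Finset (Sym2 V)).filter (fun e => ¬ e.IsDiag)).image col

theorem ncol_le (col : Sym2 V → κ) (S : Finset κ) :
    (allC col).card ≤ S.card + (HE col S).card := by
  have h1 : allC col ⊆ S ∪ (HE col S).image col := by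
    intro k hk
    obtain ⟨e, he, rfl⟩ := mem_image.1 hk
    by_cases h : col e ∈ S
    · exact mem_union_left _ h
    · exact mem_union_right _ (mem_image_of_mem _ ((mem_HE col S e).2 ⟨(mem_filter.1 he).2, h⟩))
  refine (Finset.card_le_card h1).trans ((Finset.card_union_le _ _).trans ?_)
  exact Nat.add_le_add_left Finset.card_image_le _

/-- The number of colours. -/
theorem num_col (n s q h L X : ℕ) (hL : 10 ^ 7 ≤ L) (hs2 : s ≤ 2 * n) (hn : 0 < n)
    (hq : q ≤ s + h) (hh : 2 * h + n * (s + 1) = n * n + X) (hB : n ≤ s + L ^ 566)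
    (hX : X ≤ n * L ^ 207) : q ≤ n * L ^ 567 := by
  have hL0 : 0 < L := by omega
  have h1 : n * n ≤ n * (s + 1) + n * L ^ 566 := by
    rw [← mul_add]
    exact Nat.mul_le_mul_left _ (by omega)
  have h2 : L ^ 207 ≤ L ^ 566 := Nat.pow_le_pow_right hL0 (by norm_num)
  have h3 : n * L ^ 207 ≤ n * L ^ 566 := Nat.mul_le_mul_left _ h2
  have h4 : 1 ≤ L ^ 566 := Nat.one_le_iff_ne_zero.2 (Nat.pow_pos hL0).ne'
  have h5 : n * 1 ≤ n * L ^ 566 := Nat.mul_le_mul_left _ h4
  have h6 : n * (10 ^ 7 * L ^ 566) ≤ n * L ^ 567 := by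
    refine Nat.mul_le_mul_left _ ?_
    calc 10 ^ 7 * L ^ 566 ≤ L * L ^ 566 := Nat.mul_le_mul_right _ hL
      _ = L ^ 567 := by ring
  have h7 : n * (10 ^ 7 * L ^ 566) = 10 ^ 7 * (n * L ^ 566) := by ring
  omega

/-- Numbers for the case of many almost perfect colours: `X` is the sum of the numbers of missing
vertices. -/
theorem num_many (n s L X : ℕ) (hL : 10 ^ 7 ≤ L) (hn2 : L ^ 220000 ≤ n)
    (hs : (n - s) * L ^ 180 ≤ n) (hX : X * L ^ 358 ≤ s * n) (hs2 : s ≤ 2 * n) :
    44 * (n - 1 + X / n - s) < n ∧ 88 * (n - 1 - s + (L ^ 207 + 1)) ≤ n ∧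
      6 * (L ^ 207 + 1) * L ^ 358 < L ^ 566 := by
  have hL0 : 0 < L := by omega
  have hn0 : 0 < n := lt_of_lt_of_le (Nat.pow_pos hL0) hn2
  have e1 : L ≤ L ^ 180 := by
    calc L = L ^ 1 := (pow_one L).symm
      _ ≤ L ^ 180 := Nat.pow_le_pow_right hL0 (by norm_num)
  have e2 : L ≤ L ^ 358 := by
    calc L = L ^ 1 := (pow_one L).symm
      _ ≤ L ^ 358 := Nat.pow_le_pow_right hL0 (by norm_num)
  have hd : (n - s) * L ≤ n := le_trans (Nat.mul_le_mul_left _ e1) hs
  have hXL : X * L ≤ 2 * n * n := by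
    calc X * L ≤ X * L ^ 358 := Nat.mul_le_mul_left _ e2
      _ ≤ s * n := hX
      _ ≤ 2 * n * n := Nat.mul_le_mul_right _ hs2
  have hq : X / n * L ≤ 2 * n := by
    have h1 : X / n * n ≤ X := Nat.div_mul_le_self X n
    have h2 : (X / n * L) * n ≤ (2 * n) * n := by
      calc (X / n * L) * n = (X / n * n) * L := by ring
        _ ≤ X * L := Nat.mul_le_mul_right _ h1
        _ ≤ 2 * n * n := hXL
    exact Nat.le_of_mul_le_mul_right h2 hn0
  have hL5 : 10 ^ 5 * (n - s) ≤ n := by
    calc 10 ^ 5 * (n - s) = (n - s) * 10 ^ 5 := mul_comm _ _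
      _ ≤ (n - s) * L := Nat.mul_le_mul_left _ (le_trans (by norm_num) hL)
      _ ≤ n := hd
  have hq5 : 10 ^ 5 * (X / n) ≤ 2 * n := by
    calc 10 ^ 5 * (X / n) = (X / n) * 10 ^ 5 := mul_comm _ _
      _ ≤ (X / n) * L := Nat.mul_le_mul_left _ (le_trans (by norm_num) hL)
      _ ≤ 2 * n := hq
  have hpow : 10 ^ 5 * (L ^ 207 + 1) ≤ n := by
    have h1 : 1 ≤ L ^ 207 := Nat.one_le_iff_ne_zero.2 (Nat.pow_pos hL0).ne'
    calc 10 ^ 5 * (L ^ 207 + 1) ≤ 10 ^ 7 * L ^ 207 := by omega
      _ ≤ L * L ^ 207 := Nat.mul_le_mul_right _ hL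
      _ = L ^ 208 := by ring
      _ ≤ L ^ 220000 := Nat.pow_le_pow_right hL0 (by norm_num)
      _ ≤ n := hn2
  refine ⟨?_, ?_, ?_⟩
  · omega
  · omega
  · have h1 : 1 ≤ L ^ 207 := Nat.one_le_iff_ne_zero.2 (Nat.pow_pos hL0).ne'
    have h2 : 6 * (L ^ 207 + 1) < L * L ^ 207 := by
      have h3 : 10 ^ 7 * L ^ 207 ≤ L * L ^ 207 := Nat.mul_le_mul_right _ hL
      omega
    calc 6 * (L ^ 207 + 1) * L ^ 358 < (L * L ^ 207) * L ^ 358 :=
          Nat.mul_lt_mul_of_pos_right h2 (Nat.pow_pos hL0)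
      _ = L ^ 566 := by ring

/-- The case of many almost perfect colours. -/
theorem many_caseL (col : Sym2 V → κ) (hcol : Proper col) (L : ℕ) (hL : 10 ^ 7 ≤ L)
    (hn : Fintype.card V ≤ 2 ^ L) (hn2 : L ^ 220000 ≤ Fintype.card V)
    (h : (Fintype.card V - (SA col L).card) * L ^ 180 ≤ Fintype.card V) :
    ∃ (U : Finset V) (E : Finset (Sym2 V)), Cyc U E ∧ E.card = U.card ∧ Rb col E ∧
      3 ≤ U.card ∧ Fintype.card V ≤ U.card + L ^ 207 ∧
      (U = univ ∨ (Fintype.card V ≤ (SA col L).card + L ^ 566 ∧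
        ∑ k ∈ SA col L, (univ.filter (fun x => par col k x = x)).card ≤
          Fintype.card V * L ^ 207 ∧ (allC col).card ≤ Fintype.card V * L ^ 567 ∧
        ∀ F, LF univ F → Rb col F → (∀ e ∈ F, col e ∉ SA col L) →
          (SA col L).card + F.card < U.card + L ^ 207)) := by
  classical
  have hL0 : 0 < L := by omega
  have hV : 0 < Fintype.card V := lt_of_lt_of_le (Nat.pow_pos hL0) hn2
  obtain ⟨F, hF, hmax⟩ := Finset.exists_max_image
    ((univ : Finset (Finset (Sym2 V))).filter
      (fun F => LF univ F ∧ Rb col F ∧ ∀ e ∈ F, col e ∉ SA col L))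
    (fun F => F.card) ⟨∅, mem_filter.2 ⟨mem_univ _, by
      refine ⟨⟨univ.toList, Finset.nodup_toList _, fun v => Finset.mem_toList, ?_⟩, ?_, ?_⟩
      · intro e he
        exact absurd he (Finset.notMem_empty e)
      · intro e he
        exact absurd he (Finset.notMem_empty e)
      · intro e he
        exact absurd he (Finset.notMem_empty e)⟩⟩
  obtain ⟨hF1, hF2, hF3⟩ := (mem_filter.1 hF).2
  have hmax' : ∀ F', LF univ F' → Rb col F' → (∀ e ∈ F', col e ∉ SA col L) →
      F'.card ≤ F.card := by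
    intro F' h1 h2 h3
    exact hmax F' (mem_filter.2 ⟨mem_univ _, h1, h2, h3⟩)
  obtain ⟨U, E, h1, h2, h3, h4, h5⟩ := caseL col hcol L
    (le_trans (by norm_num) hL) hn (le_trans (Nat.pow_le_pow_right (by omega) (by norm_num)) hn2)
    (SA col L) (fun k hk => (mem_filter.1 hk).2) h F hF1 hF2 hF3
  refine ⟨U, E, h1, h2, h3, h4, ?_⟩
  rcases h5 with h5 | h5
  · refine ⟨?_, Or.inl h5⟩
    rw [h5, Finset.card_univ]
    omega
  by_cases hUu : U = univ
  · refine ⟨?_, Or.inl hUu⟩
    rw [hUu, Finset.card_univ]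
    omega
  have hUlt : U.card < Fintype.card V := by
    rw [← Finset.card_univ]
    exact Finset.card_lt_card (Finset.ssubset_univ_iff.2 hUu)
  set s := (SA col L).card with hs
  set X := ∑ k ∈ SA col L, (univ.filter (fun x => par col k x = x)).card with hX
  set n := Fintype.card V with hnn
  have hXL : X * L ^ 358 ≤ s * n := by
    rw [hX, Finset.sum_mul]
    calc ∑ k ∈ SA col L, (univ.filter (fun x => par col k x = x)).card * L ^ 358 ≤
        ∑ k ∈ SA col L, n := Finset.sum_le_sum fun k hk => (mem_filter.1 hk).2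
      _ = s * n := by rw [Finset.sum_const, smul_eq_mul]
  have hsle : s ≤ 2 * n := by
    have h6 := S_card col hcol (SA col L) (L ^ 358) (fun k hk => (mem_filter.1 hk).2) hV
    rw [← hs, ← hnn] at h6
    have h7 : 2 ≤ L ^ 358 := by
      calc 2 ≤ L := by omega
        _ = L ^ 1 := (pow_one L).symm
        _ ≤ L ^ 358 := Nat.pow_le_pow_right hL0 (by norm_num)
    have h8 : s * L ^ 358 ≤ n * L ^ 358 + s :=
      le_trans h6 (Nat.add_le_add_right (Nat.mul_le_mul_right _ (Nat.sub_le n 1)) _)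
    generalize L ^ 358 = a at h7 h8
    by_contra hcon
    have h9 : 2 * n + 1 ≤ s := by omega
    nlinarith
  obtain ⟨n1, n2, n3⟩ := num_many n s L X hL hn2 h hXL hsle
  have hHd : ∀ e ∈ HE col (SA col L), ¬ e.IsDiag := fun e he => ((mem_HE _ _ e).1 he).1
  have hHp := HE_proper col hcol (SA col L)
  have hcard := card_HE col hcol (SA col L)
  rw [← hs, ← hX, ← hnn] at hcard
  -- the sum
  have hA : n - 1 + X / n ≤ s + F.card := by
    by_cases hm : n - 1 + X / n ≤ s
    · omega
    have hm1 : 1 ≤ n - 1 + X / n - s := by omega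
    obtain ⟨F', hF'1, hF'2, hF'3, hF'4⟩ := lf_exists col (HE col (SA col L)) hHd hHp
      (n - 1 + X / n - s) hm1 (by omega) (by
        have h6 : X / n * n ≤ X := Nat.div_mul_le_self X n
        have h7 : n * (n - 1 + X / n - s) + n * (s + 1) = n * n + X / n * n := by
          have h8 : n - 1 + X / n - s + (s + 1) = n + X / n := by omega
          rw [← mul_add, h8]
          ring
        have h9 : n * (n - 1 + X / n - s) ≤ 2 * (HE col (SA col L)).card := by omega
        have h10 : n * (n - 1 + X / n - s) = n * (n - 1 + X / n - s - 1) + n := by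
          obtain ⟨m, hm2⟩ : ∃ m, n - 1 + X / n - s = m + 1 := ⟨n - 1 + X / n - s - 1, by omega⟩
          rw [hm2]
          simp [mul_add]
        change n * (n - 1 + X / n - s - 1) + 44 * (n - 1 + X / n - s) <
          2 * (HE col (SA col L)).card
        omega)
    have h6 := hmax' F' hF'2 hF'3 (fun e he => ((mem_HE _ _ e).1 (hF'1 he)).2)
    omega
  have hB : n ≤ s + L ^ 566 := by
    by_contra hcon
    have hj : L ^ 566 ≤ n - 1 - s := by omega
    obtain ⟨F', hF'1, hF'2, hF'3, hF'4⟩ := lf_exists2 col (HE col (SA col L)) hHd hHp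
      (n - 1 - s) (L ^ 358) (L ^ 207 + 1) (Nat.one_le_iff_ne_zero.2 (Nat.pow_pos hL0).ne') (by
        intro x
        rw [dg_HE]
        have h6 := deg_nS col hcol (SA col L) x
        rw [← hs, ← hnn] at h6
        omega) (by
        intro q
        have h6 := class_HE col (SA col L) q
        by_cases hq : q ∈ (univ : Finset (Sym2 V)).image col \ SA col L
        · obtain ⟨h7, h8⟩ := mem_sdiff.1 hq
          have h9 : n < (univ.filter (fun x => par col q x = x)).card * L ^ 358 := by
            by_contra hcon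
            exact h8 (mem_filter.2 ⟨h7, by omega⟩)
          have h10 := ec_miss col hcol q
          have h11 : n * L ^ 358 = ec col q * L ^ 358 +
              (univ.filter (fun x => par col q x = x)).card * L ^ 358 := by
            rw [← add_mul, h10]
          have h12 : 2 * ((HE col (SA col L)).filter (fun e => col e = q)).card * L ^ 358 ≤
            ec col q * L ^ 358 := Nat.mul_le_mul_right _ h6
          change _ + n ≤ n * L ^ 358
          omega
        · have h7 : (HE col (SA col L)).filter (fun e => col e = q) = ∅ := by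
            rw [Finset.filter_eq_empty_iff]
            intro e he hc
            apply hq
            rw [← hc]
            exact mem_sdiff.2 ⟨mem_image_of_mem _ (mem_univ _), ((mem_HE _ _ e).1 he).2⟩
          rw [h7, Finset.card_empty]
          have h8 : 1 ≤ L ^ 358 := Nat.one_le_iff_ne_zero.2 (Nat.pow_pos hL0).ne'
          calc 2 * 0 * L ^ 358 + n = n * 1 := by ring
            _ ≤ n * L ^ 358 := Nat.mul_le_mul_left _ h8)
      (lt_of_lt_of_le n3 hj) n2
    have h6 := hmax' F' hF'2 hF'3 (fun e he => ((mem_HE _ _ e).1 (hF'1 he)).2)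
    omega
  have hC : X ≤ n * L ^ 207 := by
    have h6 : X / n < L ^ 207 := by
      have h7 := hA
      generalize X / n = q at h7 ⊢
      omega
    rw [Nat.div_lt_iff_lt_mul hV] at h6
    calc X ≤ L ^ 207 * n := h6.le
      _ = n * L ^ 207 := mul_comm _ _
  have hD : n ≤ U.card + L ^ 207 := by
    have h6 := hA
    generalize X / n = q at h6
    omega
  have hN := num_col n s (allC col).card (HE col (SA col L)).card L X hL hsle hV
    (ncol_le col (SA col L)) hcard hB hC
  refine ⟨hD, Or.inr ⟨hB, hC, hN, ?_⟩⟩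
  intro F' h6 h7 h8
  have h9 := hmax' F' h6 h7 h8
  omega

/-- All colourings. -/
theorem all_colL (col : Sym2 V → κ) (hcol : Proper col) (L : ℕ) (hL : 10 ^ 7 ≤ L)
    (hn : Fintype.card V ≤ 2 ^ L) (hn2 : L ^ 220000 ≤ Fintype.card V) :
    ∃ (U : Finset V) (E : Finset (Sym2 V)), Cyc U E ∧ E.card = U.card ∧ Rb col E ∧
      3 ≤ U.card ∧ Fintype.card V ≤ U.card + L ^ 207 ∧
      (U = univ ∨ (Fintype.card V ≤ (SA col L).card + L ^ 566 ∧
        ∑ k ∈ SA col L, (univ.filter (fun x => par col k x = x)).card ≤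
          Fintype.card V * L ^ 207 ∧ (allC col).card ≤ Fintype.card V * L ^ 567 ∧
        ∀ F, LF univ F → Rb col F → (∀ e ∈ F, col e ∉ SA col L) →
          (SA col L).card + F.card < U.card + L ^ 207)) := by
  by_cases h : (Fintype.card V - (SA col L).card) * L ^ 180 ≤ Fintype.card V
  · exact many_caseL col hcol L hL hn hn2 h
  · obtain ⟨E, h1, h2, h3⟩ := few_case col hcol L hL hn hn2 (by omega)
    have h4 : 3 ≤ Fintype.card V := by
      refine le_trans ?_ hn2
      calc 3 ≤ L := by omega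
        _ = L ^ 1 := (pow_one L).symm
        _ ≤ L ^ 220000 := Nat.pow_le_pow_right (by omega) (by norm_num)
    refine ⟨univ, E, h1, ?_, h3, ?_, ?_, Or.inl rfl⟩
    · rw [Finset.card_univ]
      exact h2
    · rw [Finset.card_univ]
      exact h4
    · rw [Finset.card_univ]
      omega

/-- A set of almost perfect colours is contained in `SA`. -/
theorem sub_SA (col : Sym2 V → κ) (L : ℕ) (hL : 2 ≤ L) (hV : 0 < Fintype.card V)
    (S : Finset κ)
    (hS : ∀ k ∈ S, (univ.filter (fun x => par col k x = x)).card * L ^ 358 ≤ Fintype.card V) :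
    S ⊆ SA col L := by
  intro k hk
  refine mem_filter.2 ⟨?_, hS k hk⟩
  by_contra hcon
  have h1 : univ.filter (fun x => par col k x = x) = (univ : Finset V) := by
    rw [Finset.filter_eq_self]
    intro x _
    by_contra h2
    apply hcon
    rw [← par_col col k x h2]
    exact mem_image_of_mem _ (mem_univ _)
  have h2 := hS k hk
  rw [h1, Finset.card_univ] at h2
  have h3 : 2 ≤ L ^ 358 := by
    calc 2 ≤ L := hL
      _ = L ^ 1 := (pow_one L).symm
      _ ≤ L ^ 358 := Nat.pow_le_pow_right (by omega) (by norm_num)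
  nlinarith

/-- The conclusion for an arbitrary set `S` of almost perfect colours and a rainbow linear forest with
colours outside `S`. -/
theorem gen_SL (col : Sym2 V → κ) (L : ℕ) (hL : 2 ≤ L) (hV : 0 < Fintype.card V)
    (S : Finset κ)
    (hS : ∀ k ∈ S, (univ.filter (fun x => par col k x = x)).card * L ^ 358 ≤ Fintype.card V)
    (F : Finset (Sym2 V)) (hF : LF univ F) (hr : Rb col F) (hFS : ∀ e ∈ F, col e ∉ S) :
    ∃ F', LF univ F' ∧ Rb col F' ∧ (∀ e ∈ F', col e ∉ SA col L) ∧
      S.card + F.card ≤ (SA col L).card + F'.card := by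
  have hsub := sub_SA col L hL hV S hS
  refine ⟨F.filter (fun e => col e ∉ SA col L), hF.mono (Finset.filter_subset _ _), ?_, ?_, ?_⟩
  · intro e he e' he'
    exact hr e (mem_filter.1 he).1 e' (mem_filter.1 he').1
  · intro e he
    exact (mem_filter.1 he).2
  · have h1 : (F.filter (fun e => ¬ col e ∉ SA col L)).card ≤ (SA col L \ S).card := by
      refine Finset.card_le_card_of_injOn col ?_ ?_
      · intro e he
        obtain ⟨h2, h3⟩ := mem_filter.1 (mem_coe.1 he)
        exact mem_coe.2 (mem_sdiff.2 ⟨not_not.1 h3, hFS e h2⟩)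
      · intro e he e' he' h
        exact hr e (mem_filter.1 (mem_coe.1 he)).1 e' (mem_filter.1 (mem_coe.1 he')).1 h
    have h2 := Finset.card_filter_add_card_filter_not (s := F) (fun e => col e ∉ SA col L)
    have h3 := Finset.card_sdiff_add_card_eq_card hsub
    omega

end Pool.Agent.W_cd7020_h81f
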